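import Pool.Agent.helper37.Sz.F1

/-! # Module SZ-A2 (pages of direct sums) -/

open scoped symmDiff

namespace Pool.Agent.helper20.Sz

namespace A2

open F1

theorem page_prod (C C1 C2 : FC) (e : C.M ≃ₗ[ZMod 2] C1.M × C2.M) (s1 s2 : ℤ)
    (hd : ∀ x, e (C.d x) = (C1.d (e x).1, C2.d (e x).2))
    (hG : ∀ a b x, x ∈ C.G a b ↔ (e x).1 ∈ C1.G a (b + s1) ∧ (e x).2 ∈ C2.G a (b + s2))
    (k : ℕ) (a b : ℤ) :
    Nonempty (C.Page k a b ≃ₗ[ZMod 2] C1.Page k a (b + s1) × C2.Page k a (b + s2)) := by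
  have hZ : ∀ (k : ℕ) (a b : ℤ) (x : C.M), x ∈ C.Z k a b ↔
      (e x).1 ∈ C1.Z k a (b + s1) ∧ (e x).2 ∈ C2.Z k a (b + s2) := by
    intro k a b x
    rw [mem_Z, mem_Z, mem_Z, hG, hG, hd]
    have e1 : b - 2 + s1 = b + s1 - 2 := by ring
    have e2 : b - 2 + s2 = b + s2 - 2 := by ring
    rw [e1, e2]
    tauto
  let g1 : C.Z k a b →ₗ[ZMod 2] C1.Z k a (b + s1) :=
    ((LinearMap.fst _ _ _).comp (e : C.M →ₗ[ZMod 2] C1.M × C2.M)).restrict
      (p := C.Z k a b) (q := C1.Z k a (b + s1)) fun x hx => ((hZ k a b x).1 hx).1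
  let g2 : C.Z k a b →ₗ[ZMod 2] C2.Z k a (b + s2) :=
    ((LinearMap.snd _ _ _).comp (e : C.M →ₗ[ZMod 2] C1.M × C2.M)).restrict
      (p := C.Z k a b) (q := C2.Z k a (b + s2)) fun x hx => ((hZ k a b x).1 hx).2
  have hg1 : ∀ x : C.Z k a b, (g1 x : C1.M) = (e (x : C.M)).1 := fun x => rfl
  have hg2 : ∀ x : C.Z k a b, (g2 x : C2.M) = (e (x : C.M)).2 := fun x => rfl
  refine page_equiv_of C k a b
    (((Submodule.mkQ _).comp g1).prod ((Submodule.mkQ _).comp g2)) ?_ ?_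
  · rintro ⟨q1, q2⟩
    obtain ⟨y1, rfl⟩ := Submodule.Quotient.mk_surjective _ q1
    obtain ⟨y2, rfl⟩ := Submodule.Quotient.mk_surjective _ q2
    have hm : e.symm ((y1 : C1.M), (y2 : C2.M)) ∈ C.Z k a b := by
      rw [hZ, LinearEquiv.apply_symm_apply]
      exact ⟨y1.2, y2.2⟩
    have k1 : g1 ⟨_, hm⟩ = y1 := Subtype.ext (by rw [hg1]; simp)
    have k2 : g2 ⟨_, hm⟩ = y2 := Subtype.ext (by rw [hg2]; simp)
    refine ⟨⟨_, hm⟩, ?_⟩
    rw [LinearMap.prod_apply, Function.prod_apply, LinearMap.comp_apply, LinearMap.comp_apply,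
      k1, k2]
    rfl
  · intro x
    rw [LinearMap.prod_apply, Function.prod_apply, LinearMap.comp_apply, LinearMap.comp_apply,
      Submodule.mkQ_apply, Submodule.mkQ_apply, Prod.mk_eq_zero, mk_eq_zero, mk_eq_zero]
    constructor
    · rintro ⟨⟨u1, hu1, w1, hw1, h1⟩, ⟨u2, hu2, w2, hw2, h2⟩⟩
      rw [hg1] at h1
      rw [hg2] at h2
      refine ⟨e.symm (u1, u2), ?_, e.symm (w1, w2), ?_, ?_⟩
      · rw [hZ, LinearEquiv.apply_symm_apply]
        exact ⟨hu1, hu2⟩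
      · rw [hZ, LinearEquiv.apply_symm_apply]
        have e1 : b + 2 + s1 = b + s1 + 2 := by ring
        have e2 : b + 2 + s2 = b + s2 + 2 := by ring
        rw [e1, e2]
        exact ⟨hw1, hw2⟩
      · apply e.injective
        rw [map_add, hd, LinearEquiv.apply_symm_apply, LinearEquiv.apply_symm_apply]
        exact Prod.ext h1 h2
    · rintro ⟨u, hu, w, hw, h⟩
      rw [hZ] at hu hw
      have e1 : b + 2 + s1 = b + s1 + 2 := by ring
      have e2 : b + 2 + s2 = b + s2 + 2 := by ring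
      rw [e1, e2] at hw
      refine ⟨⟨_, hu.1, _, hw.1, ?_⟩, ⟨_, hu.2, _, hw.2, ?_⟩⟩
      · rw [hg1, ← h, map_add, hd]; rfl
      · rw [hg2, ← h, map_add, hd]; rfl

theorem page_congr (C C' : FC) (e : C.M ≃ₗ[ZMod 2] C'.M)
    (hd : ∀ x, e (C.d x) = C'.d (e x)) (hG : ∀ a b x, x ∈ C.G a b ↔ e x ∈ C'.G a b)
    (k : ℕ) (a b : ℤ) : Nonempty (C.Page k a b ≃ₗ[ZMod 2] C'.Page k a b) := by
  have hZ : ∀ (k : ℕ) (a b : ℤ) (x : C.M), x ∈ C.Z k a b ↔ e x ∈ C'.Z k a b := by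
    intro k a b x
    rw [mem_Z, mem_Z, hG, hG, hd]
  let g : C.Z k a b →ₗ[ZMod 2] C'.Z k a b :=
    (e : C.M →ₗ[ZMod 2] C'.M).restrict
      (p := C.Z k a b) (q := C'.Z k a b) fun x hx => (hZ k a b x).1 hx
  have hg : ∀ x : C.Z k a b, (g x : C'.M) = e (x : C.M) := fun x => rfl
  refine page_equiv_of C k a b ((Submodule.mkQ _).comp g) ?_ ?_
  · intro q
    obtain ⟨y, rfl⟩ := Submodule.Quotient.mk_surjective _ q
    refine ⟨⟨e.symm y, ?_⟩, ?_⟩
    · rw [hZ, LinearEquiv.apply_symm_apply]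
      exact y.2
    · rw [LinearMap.comp_apply, Submodule.mkQ_apply]
      congr 1
      apply Subtype.ext
      rw [hg]
      simp
  · intro x
    rw [LinearMap.comp_apply, Submodule.mkQ_apply, mk_eq_zero]
    constructor
    · rintro ⟨u, hu, w, hw, h⟩
      rw [hg] at h
      refine ⟨e.symm u, ?_, e.symm w, ?_, ?_⟩
      · rw [hZ, LinearEquiv.apply_symm_apply]; exact hu
      · rw [hZ, LinearEquiv.apply_symm_apply]; exact hw
      · apply e.injective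
        rw [map_add, hd, LinearEquiv.apply_symm_apply, LinearEquiv.apply_symm_apply]
        exact h
    · rintro ⟨u, hu, w, hw, h⟩
      refine ⟨_, (hZ _ _ _ _).1 hu, _, (hZ _ _ _ _).1 hw, ?_⟩
      rw [hg, ← h, map_add, hd]

end A2

end Pool.Agent.helper20.Sz
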