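import Pool.Agent.helper20.Sz.Sys

/-! # Module SZ-F1 (comparison of filtered complexes) -/

open scoped symmDiff

namespace Pool.Agent.helper20.Sz

namespace F1

/-- membership in the denominator of a page -/
theorem mk_eq_zero (C : FC) (k : ℕ) (a b : ℤ) (x : C.Z k a b) :
    (Submodule.Quotient.mk x : C.Page k a b) = 0 ↔
      ∃ u ∈ C.Z (k - 1) (a + 1) b, ∃ w ∈ C.Z (k - 1) (a - k + 1) (b + 2),
        u + C.d w = (x : C.M) := by
  rw [Submodule.Quotient.mk_eq_zero, Submodule.mem_comap, Submodule.mem_sup]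
  constructor
  · rintro ⟨u, hu, _, ⟨w, hw, rfl⟩, h⟩
    exact ⟨u, hu, w, hw, h⟩
  · rintro ⟨u, hu, w, hw, h⟩
    exact ⟨u, hu, _, ⟨w, hw, rfl⟩, h⟩

theorem mem_Z (C : FC) (k : ℕ) (a b : ℤ) (x : C.M) :
    x ∈ C.Z k a b ↔ x ∈ C.G a b ∧ C.d x ∈ C.G (a + k) (b - 2) := Iff.rfl

/-- a page is the target of a surjection with the right kernel -/
theorem page_equiv_of (C : FC) (k : ℕ) (a b : ℤ) {P : Type} [AddCommGroup P]
    [Module (ZMod 2) P] (g : C.Z k a b →ₗ[ZMod 2] P) (hs : Function.Surjective g)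
    (hk : ∀ x : C.Z k a b, g x = 0 ↔
      ∃ u ∈ C.Z (k - 1) (a + 1) b, ∃ w ∈ C.Z (k - 1) (a - k + 1) (b + 2),
        u + C.d w = (x : C.M)) : Nonempty (C.Page k a b ≃ₗ[ZMod 2] P) := by
  have hker : (C.Z (k - 1) (a + 1) b ⊔
      (C.Z (k - 1) (a - k + 1) (b + 2)).map C.d).comap (C.Z k a b).subtype =
      LinearMap.ker g := by
    ext x
    rw [LinearMap.mem_ker, hk, ← mk_eq_zero, Submodule.Quotient.mk_eq_zero]
  exact ⟨(Submodule.quotEquivOfEq _ _ hker).trans (g.quotKerEquivOfSurjective hs)⟩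

theorem anti_le (C : FC) (anti : ∀ a b, C.G (a + 1) b ≤ C.G a b) (a b : ℤ) (n : ℕ) :
    C.G (a + n) b ≤ C.G a b := by
  induction n with
  | zero => simp
  | succ n ih =>
    have := anti (a + n) b
    push_cast
    rw [← add_assoc]
    exact this.trans ih

theorem anti_le' (C : FC) (anti : ∀ a b, C.G (a + 1) b ≤ C.G a b) {a a' : ℤ} (b : ℤ)
    (h : a ≤ a') : C.G a' b ≤ C.G a b := by
  obtain ⟨n, rfl⟩ := Int.le.dest h
  exact anti_le C anti a b n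

/-- the four comparison statements for the interval `[a, a + k)` -/
theorem interval (C C' : FC) (f : C.M →ₗ[ZMod 2] C'.M)
    (anti : ∀ a b, C.G (a + 1) b ≤ C.G a b) (anti' : ∀ a b, C'.G (a + 1) b ≤ C'.G a b)
    (hd : ∀ a b, ∀ x ∈ C.G a b, C.d x ∈ C.G a (b - 2))
    (hd' : ∀ a b, ∀ x ∈ C'.G a b, C'.d x ∈ C'.G a (b - 2))
    (hdd : ∀ a b, ∀ x ∈ C.G a b, C.d (C.d x) = 0)
    (hdd' : ∀ a b, ∀ x ∈ C'.G a b, C'.d (C'.d x) = 0)
    (hf : ∀ a b, ∀ x ∈ C.G a b, f x ∈ C'.G a b)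
    (hfd : ∀ a b, ∀ x ∈ C.G a b, f (C.d x) = C'.d (f x))
    (surj : ∀ a b, ∀ y ∈ C'.G a b, C'.d y ∈ C'.G (a + 1) (b - 2) → ∃ x ∈ C.G a b,
      C.d x ∈ C.G (a + 1) (b - 2) ∧ ∃ z ∈ C'.G a (b + 2), y - f x - C'.d z ∈ C'.G (a + 1) b)
    (inj : ∀ a b, ∀ x ∈ C.G a b, C.d x ∈ C.G (a + 1) (b - 2) → ∀ z ∈ C'.G a (b + 2),
      f x - C'.d z ∈ C'.G (a + 1) b → ∃ z0 ∈ C.G a (b + 2), x - C.d z0 ∈ C.G (a + 1) b)
    (k : ℕ) (hk : 1 ≤ k) :
    (∀ a b, ∀ y ∈ C'.G a b, C'.d y ∈ C'.G (a + k) (b - 2) → ∃ x ∈ C.G a b,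
      C.d x ∈ C.G (a + k) (b - 2) ∧ ∃ z ∈ C'.G a (b + 2), y - f x - C'.d z ∈ C'.G (a + k) b) ∧
    (∀ a b, ∀ x ∈ C.G a b, C.d x ∈ C.G (a + k) (b - 2) → ∀ z ∈ C'.G a (b + 2),
      f x - C'.d z ∈ C'.G (a + k) b → ∃ z0 ∈ C.G a (b + 2), x - C.d z0 ∈ C.G (a + k) b) := by
  induction k, hk using Nat.le_induction with
  | base => exact ⟨by simpa using surj, by simpa using inj⟩
  | succ k hk ih =>
    obtain ⟨ihs, ihi⟩ := ih
    have ek : ∀ a : ℤ, a + ((k + 1 : ℕ) : ℤ) = a + k + 1 := fun a => by push_cast; ring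
    constructor
    · intro a b y hy hdy
      rw [ek] at hdy
      obtain ⟨x, hx, hdx, z, hz, hr⟩ := ihs a b y hy (anti' _ _ hdy)
      set y1 := y - f x - C'.d z with hy1
      have hdy1 : C'.d y1 = C'.d y - f (C.d x) := by
        rw [hy1, map_sub, map_sub, hdd' _ _ z hz, hfd _ _ x hx, sub_zero]
      obtain ⟨z0, hz0, hz0'⟩ := inj (a + k) (b - 2) (C.d x) hdx
        (by rw [hdd _ _ x hx]; exact zero_mem _) (-y1)
        (by rw [sub_add_cancel]; exact neg_mem hr)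
        (by
          have : f (C.d x) - C'.d (-y1) = C'.d y := by
            rw [map_neg, hdy1]; abel
          rw [this]; exact hdy)
      rw [sub_add_cancel] at hz0
      have hz0a : z0 ∈ C.G a b := anti_le C anti a b k hz0
      obtain ⟨x3, hx3, hdx3, z3, hz3, hr3⟩ := surj (a + k) b (y1 + f z0)
        (add_mem hr (hf _ _ _ hz0))
        (by
          have : C'.d (y1 + f z0) = C'.d y - f (C.d x - C.d z0) := by
            rw [map_add, hdy1, ← hfd _ _ z0 hz0, map_sub]; abel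
          rw [this]
          exact sub_mem hdy (hf _ _ _ hz0'))
      refine ⟨x - z0 + x3, add_mem (sub_mem hx hz0a) (anti_le C anti a b k hx3), ?_, z + z3,
        add_mem hz (anti_le C' anti' a _ k hz3), ?_⟩
      · rw [ek, map_add, map_sub]
        exact add_mem hz0' hdx3
      · rw [ek]
        have : y - f (x - z0 + x3) - C'.d (z + z3) = y1 + f z0 - f x3 - C'.d z3 := by
          rw [hy1]; simp only [map_add, map_sub]; abel
        rw [this]; exact hr3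
    · intro a b x hx hdx z hz hr
      rw [ek] at hdx hr
      obtain ⟨z0, hz0, hx1⟩ := ihi a b x hx (anti _ _ hdx) z hz (anti' _ _ hr)
      set x1 := x - C.d z0 with hx1'
      set z1 := z - f z0 with hz1'
      have hz1 : z1 ∈ C'.G a (b + 2) := sub_mem hz (hf _ _ _ hz0)
      have h1 : f x1 - C'.d z1 = f x - C'.d z := by
        rw [hx1', hz1', map_sub, map_sub, hfd _ _ z0 hz0]; abel
      have hdz1 : C'.d z1 ∈ C'.G (a + k) (b + 2 - 2) := by
        rw [add_sub_cancel_right]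
        have : C'.d z1 = f x1 - (f x - C'.d z) := by rw [← h1]; abel
        rw [this]
        exact sub_mem (hf _ _ _ hx1) (anti' _ _ hr)
      obtain ⟨x4, hx4, hdx4, z5, hz5, hz6⟩ := ihs a (b + 2) z1 hz1 hdz1
      rw [add_sub_cancel_right] at hdx4
      set z6 := z1 - f x4 - C'.d z5 with hz6'
      have hx5 : x1 - C.d x4 ∈ C.G (a + k) b := sub_mem hx1 hdx4
      have h2 : f (x1 - C.d x4) - C'.d z6 = f x - C'.d z := by
        have e1 : f (x1 - C.d x4) = f x1 - C'.d (f x4) := by rw [map_sub f, hfd _ _ x4 hx4]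
        have e2 : C'.d z6 = C'.d z1 - C'.d (f x4) := by
          rw [hz6', map_sub C'.d, map_sub C'.d, hdd' _ _ z5 hz5, sub_zero]
        rw [e1, e2, ← h1]; abel
      have h3 : C.d (x1 - C.d x4) = C.d x := by
        rw [hx1', map_sub, map_sub, hdd _ _ z0 hz0, hdd _ _ x4 hx4]; abel
      obtain ⟨z7, hz7, hz7'⟩ := inj (a + k) b (x1 - C.d x4) hx5 (by rw [h3]; exact hdx) z6 hz6
        (by rw [h2]; exact hr)
      refine ⟨z0 + x4 + z7, add_mem (add_mem hz0 hx4) (anti_le C anti a _ k hz7), ?_⟩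
      rw [ek]
      have : x - C.d (z0 + x4 + z7) = x1 - C.d x4 - C.d z7 := by
        rw [hx1']; simp only [map_add]; abel
      rw [this]; exact hz7'

theorem page_iso (C C' : FC) (f : C.M →ₗ[ZMod 2] C'.M)
    (anti : ∀ a b, C.G (a + 1) b ≤ C.G a b) (anti' : ∀ a b, C'.G (a + 1) b ≤ C'.G a b)
    (hd : ∀ a b, ∀ x ∈ C.G a b, C.d x ∈ C.G a (b - 2))
    (hd' : ∀ a b, ∀ x ∈ C'.G a b, C'.d x ∈ C'.G a (b - 2))
    (hdd : ∀ a b, ∀ x ∈ C.G a b, C.d (C.d x) = 0)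
    (hdd' : ∀ a b, ∀ x ∈ C'.G a b, C'.d (C'.d x) = 0)
    (hf : ∀ a b, ∀ x ∈ C.G a b, f x ∈ C'.G a b)
    (hfd : ∀ a b, ∀ x ∈ C.G a b, f (C.d x) = C'.d (f x))
    (surj : ∀ a b, ∀ y ∈ C'.G a b, C'.d y ∈ C'.G (a + 1) (b - 2) → ∃ x ∈ C.G a b,
      C.d x ∈ C.G (a + 1) (b - 2) ∧ ∃ z ∈ C'.G a (b + 2), y - f x - C'.d z ∈ C'.G (a + 1) b)
    (inj : ∀ a b, ∀ x ∈ C.G a b, C.d x ∈ C.G (a + 1) (b - 2) → ∀ z ∈ C'.G a (b + 2),
      f x - C'.d z ∈ C'.G (a + 1) b → ∃ z0 ∈ C.G a (b + 2), x - C.d z0 ∈ C.G (a + 1) b)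
    (k : ℕ) (hk : 1 ≤ k) (a b : ℤ) :
    Nonempty (C.Page k a b ≃ₗ[ZMod 2] C'.Page k a b) := by
  obtain ⟨hS, hI⟩ := interval C C' f anti anti' hd hd' hdd hdd' hf hfd surj inj k hk
  have hZ : ∀ (k : ℕ) (a b : ℤ), ∀ x ∈ C.Z k a b, f x ∈ C'.Z k a b := by
    intro k a b x hx
    rw [mem_Z] at hx ⊢
    exact ⟨hf _ _ _ hx.1, by rw [← hfd _ _ _ hx.1]; exact hf _ _ _ hx.2⟩
  have e1 : ((k - 1 : ℕ) : ℤ) = k - 1 := by push_cast [Nat.cast_sub hk]; ring
  refine page_equiv_of C k a b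
    ((Submodule.mkQ _).comp (f.restrict (p := C.Z k a b) (q := C'.Z k a b) (hZ k a b))) ?_ ?_
  · intro q
    obtain ⟨y, rfl⟩ := Submodule.Quotient.mk_surjective _ q
    obtain ⟨y, hy⟩ := y
    rw [mem_Z] at hy
    obtain ⟨x, hx, hdx, z, hz, hr⟩ := hS a b y hy.1 hy.2
    refine ⟨⟨x, hx, hdx⟩, ?_⟩
    rw [LinearMap.comp_apply, Submodule.mkQ_apply, eq_comm, ← sub_eq_zero,
      ← Submodule.Quotient.mk_sub, mk_eq_zero]
    refine ⟨y - f x - C'.d z, ?_, z, ?_, ?_⟩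
    · rw [mem_Z]
      refine ⟨anti_le' C' anti' b (by omega) hr, ?_⟩
      rw [map_sub, map_sub, hdd' _ _ z hz, sub_zero, ← hfd _ _ x hx]
      have : a + 1 + ((k - 1 : ℕ) : ℤ) = a + k := by rw [e1]; ring
      rw [this]
      exact sub_mem hy.2 (hf _ _ _ hdx)
    · rw [mem_Z]
      refine ⟨anti_le' C' anti' _ (by omega) hz, ?_⟩
      have : a - k + 1 + ((k - 1 : ℕ) : ℤ) = a := by rw [e1]; ring
      rw [this]
      exact hd' _ _ _ hz
    · simp only [Submodule.coe_sub, LinearMap.coe_restrict_apply]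
      abel
  · rintro ⟨x, hx⟩
    rw [LinearMap.comp_apply, Submodule.mkQ_apply, mk_eq_zero]
    rw [mem_Z] at hx
    constructor
    · rintro ⟨u, hu, w, hw, he⟩
      rw [mem_Z] at hu hw
      simp only [LinearMap.coe_restrict_apply] at he
      have e2 : a - k + 1 + (k : ℤ) = a + 1 := by ring
      have e3 : a - k + 1 + ((k - 1 : ℕ) : ℤ) = a := by rw [e1]; ring
      obtain ⟨z0, hz0, hz0'⟩ := hI (a - k + 1) b x (anti_le' C anti b (by omega) hx.1)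
        (by rw [e2]; exact anti_le' C anti _ (by omega) hx.2) w hw.1
        (by
          rw [e2]
          have : f x - C'.d w = u := by rw [← he]; abel
          rw [this]; exact hu.1)
      rw [e2] at hz0'
      refine ⟨x - C.d z0, ?_, z0, ?_, by simp⟩
      · rw [mem_Z]
        refine ⟨hz0', ?_⟩
        rw [map_sub, hdd _ _ z0 hz0, sub_zero]
        have : a + 1 + ((k - 1 : ℕ) : ℤ) = a + k := by rw [e1]; ring
        rw [this]; exact hx.2
      · rw [mem_Z]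
        refine ⟨hz0, ?_⟩
        rw [e3, add_sub_cancel_right]
        have : C.d z0 = x - (x - C.d z0) := by abel
        rw [this]
        exact sub_mem hx.1 (anti _ _ hz0')
    · rintro ⟨u, hu, w, hw, he⟩
      refine ⟨f u, hZ _ _ _ _ hu, f w, hZ _ _ _ _ hw, ?_⟩
      simp only [LinearMap.coe_restrict_apply]
      rw [← hfd _ _ _ ((mem_Z _ _ _ _ _).1 hw).1, ← map_add, he]

end F1

end Pool.Agent.helper20.Sz
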